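import Mathlib

/-!
# Definitions for the Elementary Type Conjecture (MP_600e55_nt)
-/

set_option autoImplicit false

namespace Pool.Helper37.ETC

/-! ## Part I: Steinberg data -/

/-- A surjective homomorphism `φ : Fˣ → V` (given on nonzero elements of `F`) and a nondegenerate
bilinear form `ω` on `V` such that `ω (φ x) (φ (1 - x)) = 0`. -/
structure SD (p : ℕ) (F V : Type*) [Field F] [AddCommGroup V] [Module (ZMod p) V] where
  φ : F → V
  ω : V →ₗ[ZMod p] V →ₗ[ZMod p] ZMod p
  mul : ∀ {x y : F}, x ≠ 0 → y ≠ 0 → φ (x * y) = φ x + φ y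
  surj : ∀ v : V, ∃ x : F, x ≠ 0 ∧ φ x = v
  nondeg : ∀ v : V, (∀ w : V, ω v w = 0) → v = 0
  stein : ∀ {x : F}, x ≠ 0 → x ≠ 1 → ω (φ x) (φ (1 - x)) = 0

namespace SD

variable {p : ℕ} {F V : Type*} [Field F] [AddCommGroup V] [Module (ZMod p) V]

/-- basic neighbourhoods of `0`. -/
def N (D : SD p F V) (A : Finset F) : Set F :=
  {x | ∀ a ∈ A, 1 + a * x ≠ 0 ∧ D.φ (1 + a * x) = 0}

/-- span of the colours of `1 + kz`, `k ∈ A`. -/
def L (D : SD p F V) (z : F) (A : Finset F) : Submodule (ZMod p) V :=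
  Submodule.span (ZMod p) {v | ∃ k ∈ A, 1 + k * z ≠ 0 ∧ D.φ (1 + k * z) = v}

/-- irreducible data. -/
def Irr (D : SD p F V) : Prop :=
  ∀ A : Finset F, ∃ A' : Finset F, ∀ z : F, D.L z A ≠ ⊥ → D.L z A' = ⊤

end SD

/-- neighbourhood filter of `0` of a V-topology. -/
structure VNhd {F : Type*} [Field F] (𝒩 : Filter F) : Prop where
  zero_mem : ∀ U ∈ 𝒩, (0 : F) ∈ U
  add : ∀ U ∈ 𝒩, ∃ W ∈ 𝒩, ∀ x ∈ W, ∀ y ∈ W, x + y ∈ U
  mul : ∀ U ∈ 𝒩, ∃ W ∈ 𝒩, ∀ x ∈ W, ∀ y ∈ W, x * y ∈ U
  smul : ∀ U ∈ 𝒩, ∀ k : F, {x | k * x ∈ U} ∈ 𝒩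
  proper : ∃ U ∈ 𝒩, (1 : F) ∉ U
  nondisc : ∀ U ∈ 𝒩, ∃ x ∈ U, x ≠ 0
  vprop : ∀ U ∈ 𝒩, ∃ W ∈ 𝒩, ∀ x y : F, x * y ∈ W → x ∈ U ∨ y ∈ U

/-- the set of positive elements of an ordering of the field `F`. -/
structure IsPos {F : Type*} [Field F] (P : Set F) : Prop where
  zero : (0 : F) ∉ P
  add : ∀ {x y : F}, x ∈ P → y ∈ P → x + y ∈ P
  mul : ∀ {x y : F}, x ∈ P → y ∈ P → x * y ∈ P
  total : ∀ {x : F}, x ≠ 0 → x ∈ P ∨ -x ∈ P

/-- The norm form of `R[T]/(T^p - a)`: the determinant of the multiplication by `∑ xⱼ Tʲ`. -/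
def nf {p : ℕ} {R : Type*} [CommRing R] (x : Fin p → R) (a : R) : R :=
  Matrix.det (Matrix.of fun i j : Fin p => if j ≤ i then x (i - j) else a * x (i - j))

/-! ## Part II: continuous cochains with values in `ZMod p` -/

section Coh

variable {G : Type*} [Group G] [TopologicalSpace G]

/-- continuous characters. -/
def IsCh (p : ℕ) (χ : G → ZMod p) : Prop :=
  (∀ σ τ, χ (σ * τ) = χ σ + χ τ) ∧ IsLocallyConstant χ

/-- locally constant `2`-cocycles. -/
def IsCoc (p : ℕ) (c : G → G → ZMod p) : Prop :=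
  (∀ ρ σ τ, c σ τ + c ρ (σ * τ) = c (ρ * σ) τ + c ρ σ) ∧
    IsLocallyConstant (fun q : G × G => c q.1 q.2)

/-- coboundaries of locally constant `1`-cochains. -/
def IsCob (p : ℕ) (c : G → G → ZMod p) : Prop :=
  ∃ f : G → ZMod p, IsLocallyConstant f ∧ ∀ σ τ, c σ τ = f σ + f τ - f (σ * τ)

/-- finiteness of `H¹`. -/
def FinH1 (p : ℕ) (G : Type*) [Group G] [TopologicalSpace G] : Prop :=
  {χ : G → ZMod p | IsCh p χ}.Finite

end Coh

/-- `G` acts faithfully and continuously on the discrete field `K` as a pro-`p` group,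
`ζ ∈ K^G` is a primitive `p`-th root of unity, and all elements of `K` are `p`-th powers.
(To be used with `IsTopologicalGroup G`, `CompactSpace G`, `T2Space G`,
`TotallyDisconnectedSpace G`.) -/
structure Good (p : ℕ) (G K : Type*) [Group G] [TopologicalSpace G] [Field K]
    [MulSemiringAction G K] (ζ : K) : Prop where
  cont : ∀ x : K, IsOpen {σ : G | σ • x = x}
  faith : ∀ σ : G, (∀ x : K, σ • x = x) → σ = 1
  root : ∀ x : K, ∃ y : K, y ^ p = x
  prim : IsPrimitiveRoot ζ p
  fix : ∀ σ : G, σ • ζ = ζ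
  tors : ∀ (σ : G) (x : K), ∃ k : ℕ, σ ^ (p ^ k) • x = x

section Act

variable {G K : Type*} [Group G] [Field K] [MulSemiringAction G K]

/-- the fixed elements. -/
def Fx (G : Type*) {K : Type*} [Group G] [Field K] [MulSemiringAction G K] : Set K :=
  {x | ∀ σ : G, σ • x = x}

/-- `χ` is the Kummer character of `a`. -/
def IsKum {p : ℕ} (ζ a : K) (χ : G → ZMod p) : Prop :=
  ∀ α : K, α ^ p = a → ∀ σ : G, σ • α = ζ ^ (χ σ).val * α

/-- `x` belongs to the closure of `E` in the topology of `O`. -/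
def InCl (O : ValuationSubring K) (E : Set K) (x : K) : Prop :=
  ∀ c : K, c ≠ 0 → ∃ e ∈ E, ∃ t ∈ O, x = e + c * t

/-- the local group of `O`: the automorphisms fixing the closure of the fixed field. -/
def Dec (G : Type*) {K : Type*} [Group G] [Field K] [MulSemiringAction G K]
    (O : ValuationSubring K) : Subgroup G where
  carrier := {σ | ∀ x, InCl O (Fx G) x → σ • x = x}
  mul_mem' := by
    intro a b ha hb x hx
    rw [mul_smul, hb x hx, ha x hx]
  one_mem' := by
    intro x _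
    exact one_smul G x
  inv_mem' := by
    intro a ha x hx
    rw [inv_smul_eq_iff, ha x hx]

/-- the decomposition group of `O`. -/
def Zg (G : Type*) {K : Type*} [Group G] [Field K] [MulSemiringAction G K]
    (O : ValuationSubring K) : Subgroup G where
  carrier := {σ | ∀ x, x ∈ O ↔ σ • x ∈ O}
  mul_mem' := by
    intro a b ha hb x
    rw [mul_smul, hb x, ha (b • x)]
  one_mem' := by
    intro x
    rw [one_smul]
  inv_mem' := by
    intro a ha x
    rw [ha (a⁻¹ • x), smul_inv_smul]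

/-- the fixed field, as a subfield. -/
abbrev Fxs (G K : Type*) [Group G] [Field K] [MulSemiringAction G K] : Subfield K :=
  FixedPoints.subfield G K

/-- the valuation ring induced on the fixed field. -/
def res (G : Type*) {K : Type*} [Group G] [Field K] [MulSemiringAction G K]
    (O : ValuationSubring K) : ValuationSubring (Fxs G K) :=
  O.comap (algebraMap (Fxs G K) K)

/-- The types of factors. -/
def Typed (p : ℕ) (K : Type*) {G : Type*} [Group G] [TopologicalSpace G] [Fact p.Prime] [Field K]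
    [MulSemiringAction G K] (H : Subgroup G) : Prop :=
  Nonempty (H ≃ₜ* Multiplicative (PadicInt p)) ∨
  (∃ O : ValuationSubring K, H = Zg G O ∧
    ∃ σ ∈ H, σ ≠ 1 ∧ ∀ x ∈ O, O.valuation (σ • x - x) < 1) ∨
  (p = 2 ∧ Nat.card H = 2)

end Act

/-- The universal property of the free pro-`p` product (as in the frozen statement). -/
def Univ (p : ℕ) {G : Type*} [Group G] [TopologicalSpace G] {n : ℕ} (H : Fin n → Subgroup G) :
    Prop :=
  ∀ (P : Type) [Group P] [Finite P], (∃ k : ℕ, Nat.card P = p ^ k) →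
    ∀ φ : (i : Fin n) → (H i →* P), (∀ i, IsOpen ((φ i).ker : Set (H i))) →
      ∃! ψ : G →* P, IsOpen (ψ.ker : Set G) ∧ ∀ i, ∀ x : H i, ψ (x : G) = φ i x

/-! ## Bounded sets in a V-topology -/

section Bdd

variable {F : Type*} [Field F]

/-- bounded sets. -/
def Bd (𝒩 : Filter F) (S : Set F) : Prop :=
  ∀ U ∈ 𝒩, ∃ W ∈ 𝒩, ∀ s ∈ S, ∀ x ∈ W, s * x ∈ U

/-- power bounded elements. -/
def PBd (𝒩 : Filter F) (x : F) : Prop := Bd 𝒩 (Set.range fun n : ℕ => x ^ n)

/-- topologically nilpotent elements. -/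
def TNil (𝒩 : Filter F) (x : F) : Prop := ∀ U ∈ 𝒩, ∃ n₀ : ℕ, ∀ n ≥ n₀, x ^ n ∈ U

end Bdd

/-! ## The action on the residue field -/

section Resid

variable {G K : Type*} [Group G] [Field K] [MulSemiringAction G K]

/-- an element of the decomposition group acts on the valuation ring. -/
def actO (O : ValuationSubring K) (σ : Zg G O) : O ≃+* O where
  toFun x := ⟨(σ : G) • (x : K), (σ.2 x).1 x.2⟩
  invFun x := ⟨((σ⁻¹ : Zg G O) : G) • (x : K), ((σ⁻¹ : Zg G O).2 x).1 x.2⟩
  left_inv x := Subtype.ext (by simp)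
  right_inv x := Subtype.ext (by simp)
  map_mul' x y := Subtype.ext (by simp [smul_mul'])
  map_add' x y := Subtype.ext (by simp [smul_add])

/-- the action of the decomposition group on the residue field. -/
@[reducible]
noncomputable def resAct (O : ValuationSubring K) :
    MulSemiringAction (Zg G O) (IsLocalRing.ResidueField O) where
  smul σ x := IsLocalRing.ResidueField.mapEquiv (actO O σ) x
  one_smul x := by
    obtain ⟨x, rfl⟩ := IsLocalRing.residue_surjective x
    change IsLocalRing.residue O (actO O 1 x) = _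
    congr 1
    exact Subtype.ext (by simp [actO])
  mul_smul σ τ x := by
    obtain ⟨x, rfl⟩ := IsLocalRing.residue_surjective x
    change IsLocalRing.residue O (actO O (σ * τ) x) = IsLocalRing.residue O (actO O σ (actO O τ x))
    congr 1
    exact Subtype.ext (by simp [actO, mul_smul])
  smul_zero σ := map_zero _
  smul_add σ x y := map_add _ x y
  smul_one σ := map_one _
  smul_mul σ x y := map_mul _ x y

/-- the inertia group of `O` is trivial. -/
def NoInertia (G : Type*) {K : Type*} [Group G] [Field K] [MulSemiringAction G K]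
    (O : ValuationSubring K) : Prop :=
  ∀ σ ∈ Zg G O, (∀ x ∈ O, O.valuation (σ • x - x) < 1) → σ = 1

/-- squares of nonzero elements fixed by `c`. -/
def Pc (c : G) : Set K := {x | x ≠ 0 ∧ ∃ y : K, c • y = y ∧ y ^ 2 = x}

/-- the ordering attached to the involution `c` is archimedean. -/
def ArchInv (K : Type*) {G : Type*} [Group G] [Field K] [MulSemiringAction G K] (c : G) : Prop :=
  ∀ x : K, c • x = x → ∃ n : ℕ, (n : K) - x ∈ (Pc c : Set K)

end Resid

/-- `G` is a pro-`p` group (to be used for compact totally disconnected groups). -/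
def PP (p : ℕ) (G : Type*) [Group G] [TopologicalSpace G] : Prop :=
  ∀ (σ : G) (N : Subgroup G), IsOpen (N : Set G) → ∃ k : ℕ, σ ^ (p ^ k) ∈ N

end Pool.Helper37.ETC
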