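import Pool.Agent.Helper28.ETC.J2
import Pool.Agent.Helper65.ETC.D8
import Pool.Agent.Helper65.ETC.D56
import Pool.Agent.Helper52.ETC.W2
import Pool.Agent.Helper61.ETC.W3
import Pool.Agent.Helper50.ETC.F6
import Pool.Agent.Helper27.ETC.F8
import Pool.Agent.Helper29.ETC.D1234
import Pool.Agent.Helper39.ETC.G49
import Pool.Agent.Helper25.EC.Frame

/-!
# From the local family to the step of the recursion (bridge to helper25's frame)
-/

set_option autoImplicit false

open scoped Pointwise

namespace Pool.Helper37.ETC

open Pool.Agent.Helper25.EC (Frame FreeProd Inert Tame Step)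

section Bridge

variable {p : ℕ} {K G : Type} [Field K] [Group G] [TopologicalSpace G]
  [IsTopologicalGroup G] [CompactSpace G] [TotallyDisconnectedSpace G] [MulSemiringAction G K]

theorem pp_of_frame (h : Frame p K G) : PP p G := by
  intro σ N hN
  obtain ⟨N', hN'⟩ := ProfiniteGrp.exist_openNormalSubgroup_sub_open_nhds_of_one hN N.one_mem
  obtain ⟨k, hk⟩ := h.index N'.toSubgroup N'.isNormal' N'.isOpen
  refine ⟨k, hN' ?_⟩
  rw [← hk]
  have := N'.isNormal'
  exact Subgroup.pow_index_mem _ σ

theorem good_of_frame (h : Frame p K G) : ∃ ζ : K, Good p G K ζ := by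
  obtain ⟨ζ, h1, h2⟩ := h.zeta
  refine ⟨ζ, ⟨fun x => ?_, h.faithful, h.closed, h1, h2, ?_⟩⟩
  · exact h.stab x
  · intro σ x
    obtain ⟨k, hk⟩ := pp_of_frame h σ (MulAction.stabilizer G x) (h.stab x)
    exact ⟨k, hk⟩

theorem finH1_of_frame (h : Frame p K G) : FinH1 p G := by
  have := h.fin
  let F : {χ : G → ZMod p | IsCh p χ} →
      {χ : G →* Multiplicative (ZMod p) // IsOpen (χ.ker : Set G)} := fun χ =>
    ⟨{ toFun := fun g => Multiplicative.ofAdd (χ.1 g)
       map_one' := by
        have := χ.2.1 1 1
        rw [mul_one] at this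
        have h0 : χ.1 1 = 0 := by simpa using this
        rw [h0]; rfl
       map_mul' := fun a b => by rw [χ.2.1 a b]; rfl }, by
      change IsOpen (χ.1 ⁻¹' {0})
      exact χ.2.2 _⟩
  have hF : Function.Injective F := by
    intro χ ψ hh
    apply Subtype.ext
    funext g
    have h1 := congrArg (fun q => q.1 g) hh
    exact h1
  have := Finite.of_injective F hF
  exact Set.toFinite _

theorem zg_eq_stabilizer (O : ValuationSubring K) : Zg G O = MulAction.stabilizer G O := by
  ext σ
  rw [MulAction.mem_stabilizer_iff]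
  constructor
  · intro h
    ext x
    constructor
    · intro hx
      obtain ⟨y, hy, rfl⟩ := ValuationSubring.mem_smul_pointwise_iff_exists _ _ _ |>.1 hx
      exact (h y).1 hy
    · intro hx
      refine (ValuationSubring.mem_smul_pointwise_iff_exists _ _ _).2 ⟨σ⁻¹ • x, ?_, smul_inv_smul _ _⟩
      rw [h, smul_inv_smul]
      exact hx
  · intro h x
    constructor
    · intro hx
      rw [← h]
      exact (ValuationSubring.mem_smul_pointwise_iff_exists _ _ _).2 ⟨x, hx, rfl⟩
    · intro hx
      rw [← h] at hx
      obtain ⟨y, hy, hxy⟩ := (ValuationSubring.mem_smul_pointwise_iff_exists _ _ _).1 hx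
      rwa [← smul_left_cancel σ hxy]

theorem good25_of_typed [Fact p.Prime] {H : Subgroup G} (h : Typed p K H) :
    Pool.Agent.Helper25.EC.Good p K H := by
  rcases h with h | ⟨O, h1, σ, h2, h3, h4⟩ | h
  · exact Or.inl ⟨inferInstance, h⟩
  · refine Or.inr (Or.inl ⟨O, ?_, σ, h3, ?_, ?_⟩)
    · rw [h1, zg_eq_stabilizer]
    · rw [h1, zg_eq_stabilizer] at h2
      exact h2
    · intro x hx
      rw [ValuationSubring.mem_nonunits_iff]
      exact h4 x hx
  · exact Or.inr (Or.inr h)

/-- the free product of one factor. -/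
theorem univ_top (p : ℕ) {G : Type} [Group G] [TopologicalSpace G] [IsTopologicalGroup G] :
    Univ p (fun _ : Fin 1 => (⊤ : Subgroup G)) := by
  intro P _ _ _ φ hφ
  let e : G →* (⊤ : Subgroup G) :=
    { toFun := fun g => ⟨g, Subgroup.mem_top g⟩, map_one' := rfl, map_mul' := fun _ _ => rfl }
  have he : Continuous e := Continuous.subtype_mk continuous_id _
  refine ⟨(φ 0).comp e, ⟨?_, ?_⟩, ?_⟩
  · have : (((φ 0).comp e).ker : Set G) = e ⁻¹' ((φ 0).ker : Set (⊤ : Subgroup G)) := rfl
    rw [this]
    exact (hφ 0).preimage he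
  · intro i x
    obtain rfl : i = 0 := Subsingleton.elim _ _
    rfl
  · rintro ψ ⟨-, h⟩
    ext g
    exact h 0 ⟨g, Subgroup.mem_top g⟩

end Bridge

set_option linter.unusedSectionVars false

section StepThm

variable {p : ℕ} [Fact p.Prime] {K G : Type} [Field K] [Group G] [TopologicalSpace G]
  [IsTopologicalGroup G] [CompactSpace G] [T2Space G] [TotallyDisconnectedSpace G]
  [MulSemiringAction G K] {ζ : K}

theorem map_zpowers_closure (H : Subgroup G) (hH : IsClosed (H : Set G)) (g : H) :
    ((Subgroup.zpowers g).topologicalClosure).map H.subtype =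
      (Subgroup.zpowers (g : G)).topologicalClosure := by
  have he : Topology.IsClosedEmbedding (Subtype.val : H → G) := hH.isClosedEmbedding_subtypeVal
  apply SetLike.coe_injective
  rw [Subgroup.coe_map, Subgroup.topologicalClosure_coe, Subgroup.topologicalClosure_coe]
  change Subtype.val '' (closure _) = _
  rw [← he.closure_image_eq]
  congr 1
  ext x
  constructor
  · rintro ⟨y, ⟨n, rfl⟩, rfl⟩
    exact ⟨n, by simp⟩
  · rintro ⟨n, rfl⟩
    exact ⟨g ^ n, ⟨n, rfl⟩, by simp⟩

/-- the wild case with trivial inertia: the decomposition group is free. -/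
theorem wild_family (Gd : Good p G K ζ) (hfin : FinH1 p G) (O : ValuationSubring K)
    (hO : O ≠ ⊤) (O' : ValuationSubring K) (hO' : Dec G O = Zg G O')
    (hT : NoInertia G O') (hchar : (p : IsLocalRing.ResidueField O') = 0) :
    ∃ (n : ℕ) (H' : Fin n → Subgroup (Zg G O')), (∀ j, IsClosed (H' j : Set (Zg G O'))) ∧
      Univ p H' ∧ ∀ j, Typed p K ((H' j).map (Zg G O').subtype) := by
  have hcl : IsClosed (Zg G O' : Set G) := zg_closed Gd.cont O'
  have : CompactSpace (Zg G O') := isCompact_iff_compactSpace.1 hcl.isCompact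
  have hPP : PP p (Zg G O') := (Gd.sub (Zg G O')).pp
  have hf : FinH1 p (Zg G O') := by
    let R : (G → ZMod p) → (Zg G O' → ZMod p) := fun χ σ => χ σ
    refine (Set.Finite.image R hfin).subset ?_
    intro χ hχ
    have key : ∀ D : Subgroup G, D = Dec G O → ∀ χ : D → ZMod p, IsCh p χ →
        ∃ ψ : G → ZMod p, IsCh p ψ ∧ ∀ δ : D, ψ δ = χ δ := by
      rintro D rfl χ hχ
      exact dec_ext Gd hfin O hO χ hχ
    obtain ⟨ψ, h1, h2⟩ := key _ hO'.symm χ hχ
    exact ⟨ψ, h1, funext h2⟩
  obtain ⟨n, g, hg, hU⟩ := free_family hPP hf (fun c hc => cob_of_wild Gd O' hT hchar hc)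
  refine ⟨n, _, fun j => Subgroup.isClosed_topologicalClosure _, hU, fun j => ?_⟩
  rw [map_zpowers_closure _ hcl]
  apply procyclic_type Gd
  intro h
  exact hg j (Subtype.ext h)

theorem step_of_good (Gd : Good p G K ζ) (hfin : FinH1 p G) : Step p K G := by
  obtain ⟨n, H, hcl, hU, hT⟩ := local_family Gd hfin
  have key : ∀ i, ∃ (k : ℕ) (H' : Fin k → Subgroup (H i)), (∀ j, IsClosed (H' j : Set (H i))) ∧
      Univ p H' ∧ ∀ j, Pool.Agent.Helper25.EC.Good p K ((H' j).map (H i).subtype) ∨
        Tame p K ((H' j).map (H i).subtype) := by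
    intro i
    have hone : (Pool.Agent.Helper25.EC.Good p K (H i) ∨ Tame p K (H i)) →
        ∃ (k : ℕ) (H' : Fin k → Subgroup (H i)), (∀ j, IsClosed (H' j : Set (H i))) ∧
        Univ p H' ∧ ∀ j, Pool.Agent.Helper25.EC.Good p K ((H' j).map (H i).subtype) ∨
          Tame p K ((H' j).map (H i).subtype) := by
      intro h
      refine ⟨1, fun _ => ⊤, fun _ => isClosed_univ, univ_top p, fun _ => ?_⟩
      rw [← MonoidHom.range_eq_map, Subgroup.range_subtype]
      exact h
    rcases hT i with ⟨O, hO, hD⟩ | ⟨g, hg, hD⟩
    · obtain ⟨O', hOO', hO't, hZ⟩ := dec_eq_zg Gd hfin O hO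
      by_cases hin : NoInertia G O'
      · by_cases hchar : (p : IsLocalRing.ResidueField O') = 0
        · have hHi : H i = Zg G O' := hD.trans hZ
          obtain ⟨k, H', h1, h2, h3⟩ := wild_family Gd hfin O hO O' hZ hin hchar
          have tr : ∀ D : Subgroup G, D = Zg G O' → ∃ (k : ℕ) (H' : Fin k → Subgroup D),
              (∀ j, IsClosed (H' j : Set D)) ∧ Univ p H' ∧
              ∀ j, Pool.Agent.Helper25.EC.Good p K ((H' j).map D.subtype) ∨
                Tame p K ((H' j).map D.subtype) := by
            rintro D rfl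
            exact ⟨k, H', h1, h2, fun j => Or.inl (good25_of_typed (h3 j))⟩
          exact tr _ hHi
        · apply hone
          right
          refine ⟨O', hO't, ?_, ?_⟩
          · by_contra hcon
            apply hchar
            have hp0 : (p : K) ≠ 0 := by
              have : NeZero p := ⟨(Fact.out : p.Prime).ne_zero⟩
              exact (Gd.prim.neZero').out
            have hpO : (p : K) ∈ O' := natCast_mem O' p
            have h1 : ¬ IsUnit (⟨(p : K), hpO⟩ : O') := by
              intro hu
              obtain ⟨u, hu⟩ := hu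
              apply hcon
              have h2 : ((u⁻¹ : O'ˣ) : O') * (u : O') = 1 := by simp
              have h3 : (((u⁻¹ : O'ˣ) : O') : K) * (p : K) = 1 := by
                have := congrArg (Subtype.val) h2
                rw [hu] at this
                exact this
              have h4 : (p : K)⁻¹ = (((u⁻¹ : O'ˣ) : O') : K) := inv_eq_of_mul_eq_one_left h3
              rw [h4]
              exact Subtype.mem _
            have h2 : IsLocalRing.residue O' (⟨(p : K), hpO⟩ : O') = 0 := by
              rw [IsLocalRing.residue_eq_zero_iff]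
              exact h1
            rw [← h2, ← map_natCast (IsLocalRing.residue O') p]
            congr 1
          · rw [hD, hZ, zg_eq_stabilizer]
      · apply hone
        left
        simp only [NoInertia, not_forall] at hin
        obtain ⟨σ, h1, h2, h3⟩ := hin
        apply good25_of_typed
        refine Or.inr (Or.inl ⟨O', hD.trans hZ, σ, ?_, h3, h2⟩)
        rw [hD.trans hZ]
        exact h1
    · apply hone
      left
      apply good25_of_typed
      rw [hD]
      exact procyclic_type Gd g hg
  choose k H' h1 h2 h3 using key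
  obtain ⟨N, H'', e1, e2, e3⟩ := univ_trans H hcl hU k H' h1 h2
  refine ⟨Fin N, inferInstance, H'', e1, e2, fun l => ?_⟩
  obtain ⟨i, j, hij⟩ := e3 l
  rw [hij]
  exact h3 i j

end StepThm

theorem t2_of_frame {p : ℕ} {K G : Type} [Field K] [Group G] [TopologicalSpace G]
    [IsTopologicalGroup G] [MulSemiringAction G K] (h : Frame p K G) : T2Space G := by
  have h1 : IsClosed ({1} : Set G) := by
    have : ({1} : Set G) = ⋂ x : K, (MulAction.stabilizer G x : Set G) := by
      ext g
      simp only [Set.mem_singleton_iff, Set.mem_iInter, SetLike.mem_coe,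
        MulAction.mem_stabilizer_iff]
      constructor
      · rintro rfl x
        exact one_smul _ _
      · intro hg
        exact h.faithful g hg
    rw [this]
    exact isClosed_iInter fun x => Subgroup.isClosed_of_isOpen _ (h.stab x)
  have : T1Space G := IsTopologicalGroup.t1Space G h1
  infer_instance

/-- PART III: the step of the recursion in helper25's frame. -/
theorem step_of_frame {p : ℕ} {K G : Type} [Field K] [Group G] [TopologicalSpace G]
    [IsTopologicalGroup G] [CompactSpace G] [TotallyDisconnectedSpace G]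
    [MulSemiringAction G K] (h : Frame p K G) : Step p K G := by
  have : Fact p.Prime := ⟨h.prime⟩
  have := t2_of_frame h
  obtain ⟨ζ, hζ⟩ := good_of_frame h
  exact step_of_good hζ (finH1_of_frame h)

end Pool.Helper37.ETC
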